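import Mathlib
import Pool.Agent.H.MP_41922c_al.Stmt

/-!
# The explicit basis in characteristic `p ≥ 3` (all definitions)

Everything here is defined by explicit recursions, without reference to the identities of the octonions, and without a
field: a polynomial is a list of terms `((n, k, l), w)`, and stands for the sum of the `n 2^-k 3^-l w` (in characteristic 3
the terms with `l > 0` are `0`, since `3^-1 = 0`).

For octonions let `t(x) = x + x*`, and let `y_i = x_i - t(x_i) / 2`. Let `t_K` be the product of the traces of the variables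
in a list `K`. A function `g` of a list of variables represents a function `l` if the value of `g K` is `t_K l` for all `K`. If
`z` is a commutator or an associator then `cK K a z`, `bK K z a b`, `sK K a b z` give `t_K [a, z]`, `t_K (z, a, b)`,
`t_K ([a, b] ∘ z)`, and `tauK K d a b c`, `phiK K e a b c d` give `t_K τ(a, b, c) d⁰`, `t_K φ(a, b, c, d) e⁰`, where
`τ(a, b, c) = t([a, b] c)`, `φ(a, b, c, d) = t((a, b, c) d)`, `d⁰ = d - t(d) / 2`.
-/

set_option autoImplicit false

namespace Pool.Agent.OZ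

/-- a list of terms `((n, k, l), w)`, which stands for the sum of the `n 2^-k 3^-l w` (in characteristic 3 the terms with
`l > 0` are `0`) -/
abbrev TL := List ((ℤ × ℕ × ℕ) × FreeMagma ℕ)

/-- the product of coefficients -/
def cf (a b : ℤ × ℕ × ℕ) : ℤ × ℕ × ℕ := (a.1 * b.1, a.2.1 + b.2.1, a.2.2 + b.2.2)

/-- the product with a coefficient -/
def sm (c : ℤ × ℕ × ℕ) (a : TL) : TL := List.map (fun u => (cf c u.1, u.2)) a

/-- the sum -/
def pls (a b : TL) : TL := List.append a b

/-- the difference -/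
def sb (a b : TL) : TL := pls a (sm (-1, 0, 0) b)

/-- the product -/
def pd (a b : TL) : TL := List.flatMap (fun u => List.map (fun v => (cf u.1 v.1, FreeMagma.mul u.2 v.2)) b) a

/-- `a / 2` -/
def hf (a : TL) : TL := sm (1, 1, 0) a

/-- the Jordan product `a ∘ b = a b + b a` -/
def jr (a b : TL) : TL := pls (pd a b) (pd b a)

/-- the commutator -/
def br (a b : TL) : TL := sb (pd a b) (pd b a)

/-- the associator -/
def asr (a b c : TL) : TL := sb (pd (pd a b) c) (pd a (pd b c))

/-- a word -/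
def wd (w : FreeMagma ℕ) : TL := [((1, 0, 0), w)]

/-- the variable `x_i` -/
def xv (i : ℕ) : TL := wd (FreeMagma.of i)

/-! ### products of traces with `[a, z]`, `(z, a, b)`, `[a, b] ∘ z`, `τ(a, b, c) d⁰`, `φ(a, b, c, d) e⁰` -/

/-- `t_y t_K f(a, z)`, for `f(a, z) = [a, z]` and for `f(a, z) = (z, a, b)`, where `z` is a commutator or an associator -/
def TX (f : TL → TL → TL) (z : TL) : List ℕ → TL → TL → TL
  | [], y, a => f a (jr y z)
  | k :: K, y, a => hf (sb (pls (TX f z K y (jr (xv k) a)) (TX f z K (xv k) (jr y a))) (TX f z K a (jr y (xv k))))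

/-- `t_K f(a, z)` -/
def TK (f : TL → TL → TL) (z : TL) : List ℕ → TL → TL
  | [], a => f a z
  | k :: K, a => TX f z K (xv k) a

/-- `t_K [a, z]` -/
def cK (K : List ℕ) (a z : TL) : TL := TK br z K a

/-- `t_K (z, a, b)` -/
def bK (K : List ℕ) (z a b : TL) : TL := TK (fun u w => asr w u b) z K a

/-- `t_K ([a, b] ∘ z)` -/
def sK (K : List ℕ) (a b z : TL) : TL := sb (TX br z K b a) (jr b (cK K a z))

/-- `t_K τ(a, b, c) d⁰` -/
def tauK (K : List ℕ) (d a b c : TL) : TL :=
  pls (sb (hf (pls (bK K (br d a) b c) (bK K (br b c) d a))) (cK K d (asr a b c)))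
    (sm (1, 2, 0) (pls (pls (cK K (br a b) (br c d)) (cK K (br b c) (br a d))) (cK K (br c a) (br b d))))

/-- `t_K (q(d, u) e⁰ - q(e, u) d⁰)`, where `q(a, b) = a⁰ ∘ b⁰` and `u` is an associator -/
def hK (K : List ℕ) (d e u : TL) : TL := sb (hf (sb (cK K e (br d u)) (cK K d (br e u)))) (sm (2, 0, 0) (bK K u d e))

/-- `t_K φ(a, b, c, d) e⁰` -/
def phiK (K : List ℕ) (e a b c d : TL) : TL :=
  hf (sb (pls (hK K d e (asr a b c)) (hK K e c (asr a b d))) (hK K c d (asr a b e)))

/-! ### representations -/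

/-- functions of a list of variables -/
abbrev R := List ℕ → TL

/-- the sum -/
def ra (g h : R) : R := fun K => pls (g K) (h K)

/-- the product with a coefficient -/
def rm (c : ℤ × ℕ × ℕ) (g : R) : R := fun K => sm c (g K)

/-- `y_i l` -/
def yl (i : ℕ) (g : R) : R := fun K => sb (pd (xv i) (g K)) (hf (g (i :: K)))

/-- `l y_i` -/
def yr (i : ℕ) (g : R) : R := fun K => sb (pd (g K) (xv i)) (hf (g (i :: K)))

/-- `y_i ∘ l` -/
def yj (i : ℕ) (g : R) : R := ra (yl i g) (yr i g)

/-- `(y_i ∘ y_j) l` -/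
def qq (i j : ℕ) (g : R) : R := ra (yl i (yl j g)) (yl j (yl i g))

/-- `(y_a ∘ y_b) (y_c ∘ y_d) .. l`, for the list `a, b, c, d, ..` of even length -/
def QP : List ℕ → R → R
  | a :: b :: M, g => qq a b (QP M g)
  | _, g => g

/-- `[a, z]` -/
def c1 (a z : TL) : R := fun K => cK K a z

/-- `[a, b] ∘ z` -/
def s1 (a b z : TL) : R := fun K => sK K a b z

/-- `τ(a, b, c) d⁰` -/
def tm (d a b c : TL) : R := fun K => tauK K d a b c

/-- `φ(a, b, c, d) e⁰` -/
def pm (e a b c d : TL) : R := fun K => phiK K e a b c d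

/-- `(y_a ∘ y_b) z`, where `g i j` represents `(y_i ∘ z) y_j` -/
def qz (a b : ℕ) (z : TL) (g : ℕ → ℕ → R) : R :=
  ra (rm (1, 2, 0) (ra (c1 (xv a) (br (xv b) z)) (c1 (xv b) (br (xv a) z)))) (rm (1, 1, 0) (ra (g a b) (g b a)))

/-- `(y_a ∘ y_b) [y_i, y_j]` -/
def Q2 (a b i j : ℕ) : R := qz a b (br (xv i) (xv j)) fun k l => tm (xv l) (xv i) (xv j) (xv k)

/-- `(y_a ∘ y_b) (y_i, y_j, y_k)` -/
def Q3 (a b i j k : ℕ) : R := qz a b (asr (xv i) (xv j) (xv k)) fun l m => pm (xv m) (xv i) (xv j) (xv k) (xv l)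

/-! ### words -/

/-- the letters of a word -/
def flat : FreeMagma ℕ → List ℕ
  | .of a => [a]
  | .mul u v => flat u ++ flat v

/-- the number of the factors `y_i ∘ y_j` in `P`, where `P(i, j, k, l, ..)` is `(y_i ∘ y_j) (y_k ∘ y_l) ..` for lists of even
length, and `P(e, L) = y_e P(L)` for lists of odd length -/
def kp (w : FreeMagma ℕ) : ℕ := (flat w).length / 2

/-- the arrangement of the letters of a product -/
def cmb (L M : List ℕ) : List ℕ :=
  if Even L.length then M ++ L
  else if Even M.length then L ++ M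
  else match L, M with
    | e :: L', f :: M' => e :: f :: (L' ++ M')
    | _, _ => []

/-- the arrangement of the letters of a word -/
def pl : FreeMagma ℕ → List ℕ
  | .of a => [a]
  | .mul u v => cmb (pl u) (pl v)

/-- the letters of a word of length 2 or 3 -/
def al (w : FreeMagma ℕ) : List ℕ :=
  if (flat w).length = 2 ∨ (flat w).length = 3 then flat w else []

/-- `P(L) [y_i, y_j]`, `L` of even length `≥ 2` -/
def SQ (L : List ℕ) (i j : ℕ) : R :=
  match L with
  | a :: b :: N => QP N (Q2 a b i j)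
  | _ => fun _ => []

/-- `P(L) [y_i, y_j]`, without the scalar part if `L` has length 1 -/
def cL (L : List ℕ) (i j : ℕ) : R :=
  if Even L.length then SQ L i j
  else match L with
    | [e] => rm (1, 1, 0) (c1 (xv e) (br (xv i) (xv j)))
    | e :: L' => yl e (SQ L' i j)
    | [] => fun _ => []

/-- `[y_i, y_j] P(L)`, without the scalar part if `L` has length 1 -/
def cR (L : List ℕ) (i j : ℕ) : R :=
  if Even L.length then SQ L i j
  else match L with
    | [e] => rm (-1, 1, 0) (c1 (xv e) (br (xv i) (xv j)))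
    | e :: L' => yr e (SQ L' i j)
    | [] => fun _ => []

/-- `τ(y_i, y_j, y_k) P(L)` -/
def tP (L : List ℕ) (i j k : ℕ) : R :=
  if Even L.length then
    match L with
    | a :: b :: N => QP N (yj b (tm (xv a) (xv i) (xv j) (xv k)))
    | _ => fun _ => []
  else
    match L with
    | a :: N => QP N (tm (xv a) (xv i) (xv j) (xv k))
    | [] => fun _ => []

/-- `P(L) A`, `A = [y_i, y_j] / 2` or `τ(y_i, y_j, y_k) / 4` -/
def PA (L : List ℕ) : List ℕ → R
  | [i, j] => rm (1, 1, 0) (cL L i j)
  | [i, j, k] => rm (1, 2, 0) (tP L i j k)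
  | _ => fun _ => []

/-- `A P(L)` -/
def AP (L : List ℕ) : List ℕ → R
  | [i, j] => rm (1, 1, 0) (cR L i j)
  | [i, j, k] => rm (1, 2, 0) (tP L i j k)
  | _ => fun _ => []

/-- `A B` -/
def AA : List ℕ → List ℕ → R
  | [i, j], [k, l] => rm (1, 3, 0) (ra (c1 (br (xv i) (xv j)) (br (xv k) (xv l))) (s1 (xv i) (xv j) (br (xv k) (xv l))))
  | [i, j], [k, l, m] => rm (1, 3, 0) (tm (br (xv i) (xv j)) (xv k) (xv l) (xv m))
  | [k, l, m], [i, j] => rm (1, 3, 0) (tm (br (xv i) (xv j)) (xv k) (xv l) (xv m))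
  | [i, j, k], [l, m, n] => rm (1, 4, 0) (yj n (tm (br (xv l) (xv m)) (xv i) (xv j) (xv k)))
  | _, _ => fun _ => []

/-- `P(L) P(M)` minus a multiple of `P` of the arrangement of the letters -/
def PP2 (L M : List ℕ) : R :=
  if Even L.length ∨ Even M.length then fun _ => []
  else match L, M with
    | e :: L', f :: M' =>
      match L' ++ M' with
      | a :: b :: N => rm (1, 1, 0) (QP N (Q2 a b e f))
      | _ => fun _ => []
    | _, _ => fun _ => []

/-- `P(L) l` -/
def PG (L : List ℕ) (g : R) : R :=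
  if Even L.length then QP L g
  else match L with
    | e :: L' => yl e (QP L' g)
    | [] => fun _ => []

/-- `l P(L)` -/
def GP (L : List ℕ) (g : R) : R :=
  if Even L.length then QP L g
  else match L with
    | e :: L' => yr e (QP L' g)
    | [] => fun _ => []

/-- `A l` -/
def AG (A : List ℕ) (g : R) : R := fun K =>
  match A with
  | [i, j] => hf (pd (br (xv i) (xv j)) (g K))
  | [i, j, k] => sm (1, 2, 0) (sb (pd (jr (br (xv i) (xv j)) (xv k)) (g K)) (pd (br (xv i) (xv j)) (g (k :: K))))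
  | _ => []

/-- `l A` -/
def GA (A : List ℕ) (g : R) : R := fun K =>
  match A with
  | [i, j] => hf (pd (g K) (br (xv i) (xv j)))
  | [i, j, k] => sm (1, 2, 0) (sb (pd (g K) (jr (br (xv i) (xv j)) (xv k))) (pd (g (k :: K)) (br (xv i) (xv j))))
  | _ => []

/-- `w - 2^{-⌊n/2⌋} P(pl w) - A(w)` for a word `w` of length `n` in the `y_i`, where `A(y_i y_j) = [y_i, y_j] / 2`,
`A(w) = τ / 4` for words of length 3, and `A(w) = 0` for all other words -/
def RR : FreeMagma ℕ → R
  | .of _ => fun _ => []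
  | .mul u v => ra (ra (ra (ra (ra (ra (rm (1, kp u + kp v, 0) (PP2 (pl u) (pl v))) (rm (1, kp u, 0) (PA (pl u) (al v))))
      (rm (1, kp v, 0) (AP (pl v) (al u)))) (AA (al u) (al v)))
      (ra (rm (1, kp u, 0) (PG (pl u) (RR v))) (AG (al u) (RR v))))
      (ra (rm (1, kp v, 0) (GP (pl v) (RR u))) (GA (al v) (RR u)))) fun K => pd (RR u []) (RR v K)

/-! ### sorting -/

/-- `(y_c ∘ y_d) ((y_k ∘ y_j) y_i - (y_k ∘ y_i) y_j)` -/
def E5 (c d k j i : ℕ) : R := ra (qq c d (rm (1, 1, 0) (c1 (xv k) (br (xv j) (xv i))))) (Q3 c d k j i)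

/-- `((y_a ∘ y_i) (y_j ∘ y_d) - (y_a ∘ y_j) (y_i ∘ y_d)) y_e` -/
def G5 (e d a i j : ℕ) : R := ra (yl e (yj d (rm (1, 1, 0) (c1 (xv a) (br (xv i) (xv j)))))) (pm (xv e) (xv a) (xv i) (xv j) (xv d))

/-- `(y_a, y_i, y_j)` if `3 ≠ 0`, and `0` if `3 = 0` -/
def J3 (a i j : ℕ) : R :=
  rm (-1, 1, 1) (ra (ra (c1 (xv a) (br (xv i) (xv j))) (c1 (xv i) (br (xv j) (xv a)))) (c1 (xv j) (br (xv a) (xv i))))

/-- `(y_a ∘ y_i) (y_j ∘ y_d) - (y_a ∘ y_j) (y_i ∘ y_d)`, up to `φ(y_a, y_i, y_j, y_d)` if `3 = 0` -/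
def G4 (d a i j : ℕ) : R := yj d (ra (rm (1, 1, 0) (c1 (xv a) (br (xv i) (xv j)))) (J3 a i j))

/-- `P(.., i, j, ..) - P(.., j, i, ..)`, where `r` is the list before `i, j` in reverse order and `suf` the list after
them; up to a multiple of `φ` if there are only 4 letters and `3 = 0` -/
def Ad (r : List ℕ) (i j : ℕ) (suf : List ℕ) : R :=
  if Even suf.length then fun _ => []
  else match r, suf with
    | [], b :: c :: d :: M => QP M (E5 c d b j i)
    | a :: r', d :: M =>
      match r'.reverse ++ M with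
      | [] => G4 d a i j
      | e :: R =>
        if Even R.length then QP R (G5 e d a i j)
        else match R with
          | f :: R' => QP R' (yj f (G5 e d a i j))
          | [] => fun _ => []
    | _, _ => fun _ => []

/-- `P(.., i, L) - P(.., L with i inserted in its place)` -/
def INS : List ℕ → ℕ → List ℕ → R
  | _, _, [] => fun _ => []
  | r, i, j :: L => if i ≤ j then fun _ => [] else ra (Ad r i j L) (INS (j :: r) i L)

/-- `P(.., L) - P(.., L sorted)` -/
def SRT : List ℕ → List ℕ → R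
  | _, [] => fun _ => []
  | r, i :: L => ra (SRT (i :: r) L) (INS r i (L.insertionSort (· ≤ ·)))

/-- for a word `w` of length `n ≥ 5`, `Phi w` has the value `w(y) - 2^{-⌊n/2⌋} P(letters of w, sorted)`; for `n = 4`
the same, up to a multiple of `φ` if `3 = 0` -/
def Phi (q : TL) : TL :=
  List.flatMap (fun u => sm u.1 (pls (RR u.2 []) (sm (1, kp u.2, 0) (SRT [] (pl u.2) [])))) q

/-! ### the basis -/

/-- deletion of the letters in `K` -/
def del (K : List ℕ) : FreeMagma ℕ → Option (FreeMagma ℕ)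
  | .of a => if a ∈ K then none else some (.of a)
  | .mul u v => match del K u, del K v with
    | none, b => b
    | some a, none => some a
    | some a, some b => some (.mul a b)

/-- substitution of `1` for the variables in `K` -/
def eK (K : List ℕ) (q : TL) : TL := List.flatMap (fun u => Option.elim (del K u.2) [] fun w => [(u.1, w)]) q

/-- the sum of `(-1)^r x_{k_1} (x_{k_2} (.. (x_{k_r} f(x_{k_1} = .. = x_{k_r} = 1))))` for all `k_1 < .. < k_r < n`,
`r < n` -/
def sharp (n : ℕ) (f : TL) : TL :=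
  List.flatMap (fun K => if K.length < n then sm ((-1) ^ K.length, 0, 0) (List.foldr (fun k q => pd (xv k) q) (eK K f) K)
    else []) (List.range n).sublists

/-- the operator which maps the multilinear zeros of traceless octonions to identities -/
def Psi (n : ℕ) (f : TL) : TL := sb (pls (Phi f) (sharp n f)) (Phi (sharp n f))

/-- the involution with `x_i ↦ -x_i` -/
def ivo : FreeMagma ℕ → TL
  | .of a => sm (-1, 0, 0) (xv a)
  | .mul u v => pd (ivo v) (ivo u)

/-- the instances of the alternative laws and of the centrality of the traces, for words in traceless elements -/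
inductive Inst : TL → Prop
  | altL (u v w : FreeMagma ℕ) : Inst (pls (asr (wd u) (wd v) (wd w)) (asr (wd v) (wd u) (wd w)))
  | altR (u v w : FreeMagma ℕ) : Inst (pls (asr (wd w) (wd u) (wd v)) (asr (wd w) (wd v) (wd u)))
  | trC (u v : FreeMagma ℕ) : Inst (br (pls (wd u) (ivo u)) (wd v))
  | trA (u v w : FreeMagma ℕ) : Inst (asr (pls (wd u) (ivo u)) (wd v) (wd w))
  | left (u : FreeMagma ℕ) (f : TL) : Inst f → Inst (pd (wd u) f)
  | right (u : FreeMagma ℕ) (f : TL) : Inst f → Inst (pd f (wd u))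

/-- the elements of the basis up to the degree `d`: the two alternative laws, and `Psi n f` for all `4 ≤ n ≤ d` and all
instances `f` of the laws which are multilinear in the variables `x_0, .., x_(n-1)` -/
inductive Gen (d : ℕ) : TL → Prop
  | altL : Gen d (asr (xv 0) (xv 0) (xv 1))
  | altR : Gen d (asr (xv 1) (xv 0) (xv 0))
  | psi (n : ℕ) (f : TL) : 4 ≤ n → n ≤ d → Inst f → (∀ u ∈ f, (flat u.2).Perm (List.range n)) → Gen d (Psi n f)

section

open FreeNonUnitalNonAssocAlgebra

/-- the monomial of a word -/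
noncomputable def mn (F : Type*) [CommRing F] : FreeMagma ℕ → FreeNonUnitalNonAssocAlgebra F ℕ
  | .of a => of F a
  | .mul u v => mn F u * mn F v

/-- the polynomial of a list of terms -/
noncomputable def ev (F : Type*) [Field F] (q : TL) : FreeNonUnitalNonAssocAlgebra F ℕ :=
  (q.map fun u => ((u.1.1 : F) * (2⁻¹) ^ u.1.2.1 * (3⁻¹) ^ u.1.2.2) • mn F u.2).sum

/-- the explicit basis, up to the degree `d` -/
def Bas (F : Type*) [Field F] (d : ℕ) : Set (FreeNonUnitalNonAssocAlgebra F ℕ) := {g | ∃ q, Gen d q ∧ g = ev F q}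

end

end Pool.Agent.OZ
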