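import Pool.Agent.OB.BasY
import Pool.Agent.OZ.Def

/-!
# The compact definitions: operations and products of traces  (module OZ/A)

`ev F` maps the definitions of `OZ/Def` to those of `OB/BasY`.
-/

set_option autoImplicit false
set_option linter.unusedSectionVars false

namespace Pool.Agent.OZ

open FreeNonUnitalNonAssocAlgebra Pool.Agent.H.MP_41922c_al Pool.Agent.OB Pool.Agent.OBX

variable {F : Type*} [Field F]

/-- the value of a coefficient -/
noncomputable def kap (F : Type*) [Field F] (c : ℤ × ℕ × ℕ) : F := (c.1 : F) * (2⁻¹) ^ c.2.1 * (3⁻¹) ^ c.2.2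

theorem mn_eq (w : FreeMagma ℕ) : mn F w = mo F w := by
  induction w with
  | ih1 i => rfl
  | ih2 u v hu hv =>
    have e : mn F (u * v) = mn F u * mn F v := rfl
    rw [e, hu, hv]; rfl

theorem kap_cf (a b : ℤ × ℕ × ℕ) : kap F (cf a b) = kap F a * kap F b := by
  simp only [kap, cf, Int.cast_mul, pow_add]
  ring

theorem ev_nil : ev F [] = 0 := rfl

theorem ev_cons (u : (ℤ × ℕ × ℕ) × FreeMagma ℕ) (q : TL) : ev F (u :: q) = kap F u.1 • mo F u.2 + ev F q := by
  simp [ev, kap, mn_eq]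

theorem ev_append (a b : TL) : ev F (a ++ b) = ev F a + ev F b := by
  simp [ev]

theorem ev_ad (a b : TL) : ev F (pls a b) = ev F a + ev F b := ev_append a b

theorem ev_sm (c : ℤ × ℕ × ℕ) (a : TL) : ev F (sm c a) = kap F c • ev F a := by
  induction a with
  | nil => rw [ev_nil, smul_zero]; rfl
  | cons u a ih =>
    have e : sm c (u :: a) = (cf c u.1, u.2) :: sm c a := rfl
    rw [e, ev_cons, ev_cons, ih, kap_cf, smul_add, smul_smul]

theorem ev_sb (a b : TL) : ev F (sb a b) = ev F a - ev F b := by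
  rw [sb, ev_ad, ev_sm, sub_eq_add_neg]
  congr 1
  simp [kap]

theorem ev_map_mul (u : (ℤ × ℕ × ℕ) × FreeMagma ℕ) (b : TL) :
    ev F (b.map fun v => (cf u.1 v.1, FreeMagma.mul u.2 v.2)) = (kap F u.1 • mo F u.2) * ev F b := by
  induction b with
  | nil => rw [ev_nil, mul_zero]; rfl
  | cons w b ih =>
    have e : mo F (FreeMagma.mul u.2 w.2) = mo F u.2 * mo F w.2 := rfl
    rw [List.map_cons, ev_cons, ev_cons, ih, mul_add, kap_cf, e, smul_mul_smul_comm]

theorem ev_mu (a b : TL) : ev F (pd a b) = ev F a * ev F b := by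
  induction a with
  | nil => rw [ev_nil, zero_mul]; rfl
  | cons w a ih =>
    have e : pd (w :: a) b = (b.map fun v => (cf w.1 v.1, FreeMagma.mul w.2 v.2)) ++ pd a b := by simp [pd]
    rw [e, ev_append, ev_map_mul, ih, ev_cons, add_mul]

theorem ev_hf (a : TL) : ev F (hf a) = (2 : F)⁻¹ • ev F a := by
  rw [hf, ev_sm]
  simp [kap]

theorem ev_jr (a b : TL) : ev F (jr a b) = jor (ev F a) (ev F b) := by
  rw [jr, ev_ad, ev_mu, ev_mu, jor]

theorem ev_cm (a b : TL) : ev F (br a b) = com (ev F a) (ev F b) := by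
  rw [br, ev_sb, ev_mu, ev_mu]; rfl

theorem ev_as (a b c : TL) : ev F (asr a b c) = associator (ev F a) (ev F b) (ev F c) := by
  rw [asr, ev_sb, ev_mu, ev_mu, ev_mu, ev_mu, associator_apply]

theorem ev_wd (w : FreeMagma ℕ) : ev F (wd w) = mo F w := by
  rw [wd, ev_cons, ev_nil, add_zero]
  simp [kap]

theorem ev_x (i : ℕ) : ev F (xv i) = of F i := ev_wd _

theorem ev_sm2 (n : ℤ) (k : ℕ) (a : TL) : ev F (sm (n, k, 0) a) = ((n : F) * (2⁻¹) ^ k) • ev F a := by
  rw [ev_sm]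
  simp [kap]

theorem ev_TX {f : TL → TL → TL} {g : FA F → FA F → FA F} (h : ∀ a b, ev F (f a b) = g (ev F a) (ev F b)) (z : TL)
    (K : List ℕ) (y a : TL) : ev F (TX f z K y a) = OBY.TX F g (ev F z) (K.map (of F)) (ev F y) (ev F a) := by
  induction K generalizing y a with
  | nil => rw [TX, h, ev_jr]; rfl
  | cons k K ih =>
    rw [TX, ev_hf, ev_sb, ev_ad, ih, ih, ih, ev_jr, ev_jr, ev_jr, ev_x, List.map_cons, OBY.TX]

theorem ev_TK {f : TL → TL → TL} {g : FA F → FA F → FA F} (h : ∀ a b, ev F (f a b) = g (ev F a) (ev F b)) (z : TL)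
    (K : List ℕ) (a : TL) : ev F (TK f z K a) = OBY.TK F g (ev F z) (K.map (of F)) (ev F a) := by
  cases K with
  | nil => exact h a z
  | cons k K => rw [TK, ev_TX h, ev_x, List.map_cons, OBY.TK]

theorem ev_cK (K : List ℕ) (a z : TL) : ev F (cK K a z) = OBY.cK F (K.map (of F)) (ev F a) (ev F z) := by
  rw [cK, ev_TK ev_cm, OBY.cK]

theorem ev_bK (K : List ℕ) (z a b : TL) :
    ev F (bK K z a b) = OBY.bK F (K.map (of F)) (ev F z) (ev F a) (ev F b) := by
  rw [bK, ev_TK (g := fun u w => associator w u (ev F b)) (fun u w => ev_as w u b), OBY.bK]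

theorem ev_sK (K : List ℕ) (a b z : TL) :
    ev F (sK K a b z) = OBY.sK F (K.map (of F)) (ev F a) (ev F b) (ev F z) := by
  rw [sK, ev_sb, ev_TX ev_cm, ev_jr, ev_cK, OBY.sK]; rfl

theorem ev_tauK (K : List ℕ) (d a b c : TL) :
    ev F (tauK K d a b c) = OBY.tauK F (K.map (of F)) (ev F d) (ev F a) (ev F b) (ev F c) := by
  have e : ((1 : ℤ) : F) * (2⁻¹) ^ 2 = (4 : F)⁻¹ := by
    rw [Int.cast_one, one_mul, inv_pow]
    norm_num
  rw [tauK, ev_ad, ev_sb, ev_hf, ev_ad, ev_bK, ev_bK, ev_cK, ev_sm2, ev_ad, ev_ad, ev_cK, ev_cK, ev_cK,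
    ev_as, e, OBY.tauK]
  simp only [ev_cm]

theorem ev_hK (K : List ℕ) (d e u : TL) :
    ev F (hK K d e u) = OBY.hK F (K.map (of F)) (ev F d) (ev F e) (ev F u) := by
  have h : ∀ a : FA F, (((2 : ℤ) : F) * (2⁻¹) ^ 0) • a = 2 • a := by
    intro a
    rw [pow_zero, mul_one, Int.cast_ofNat, two_smul, two_nsmul]
  rw [hK, ev_sb, ev_hf, ev_sb, ev_cK, ev_cK, ev_sm2, ev_bK, h, OBY.hK]
  simp only [ev_cm]

theorem ev_phiK (K : List ℕ) (e a b c d : TL) :
    ev F (phiK K e a b c d) = OBY.phiK F (K.map (of F)) (ev F e) (ev F a) (ev F b) (ev F c) (ev F d) := by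
  rw [phiK, ev_hf, ev_sb, ev_ad, ev_hK, ev_hK, ev_hK, ev_as, ev_as, ev_as, OBY.phiK]

end Pool.Agent.OZ
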