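import Pool.Agent.OZ.A

/-!
# The compact definitions: representations and words  (module OZ/B)
-/

set_option autoImplicit false
set_option linter.unusedSectionVars false

namespace Pool.Agent.OZ

open FreeNonUnitalNonAssocAlgebra Pool.Agent.H.MP_41922c_al Pool.Agent.OB Pool.Agent.OBX

variable {F : Type*} [Field F]

/-- the value of a function of a list of variables -/
noncomputable def evR (F : Type*) [Field F] (g : R) : Rep F := fun K => ev F (g K)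

theorem evR_zero : evR F (fun _ => []) = 0 := rfl

theorem evR_ra (g h : R) : evR F (ra g h) = evR F g + evR F h := by
  funext K
  exact ev_ad _ _

theorem evR_rm (c : ℤ × ℕ × ℕ) (g : R) : evR F (rm c g) = kap F c • evR F g := by
  funext K
  exact ev_sm _ _

theorem evR_rm2 (n : ℤ) (k : ℕ) (g : R) : evR F (rm (n, k, 0) g) = ((n : F) * (2⁻¹) ^ k) • evR F g := by
  funext K
  exact ev_sm2 _ _ _

theorem evR_half (g : R) : evR F (rm (1, 1, 0) g) = (2 : F)⁻¹ • evR F g := by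
  rw [evR_rm2, Int.cast_one, one_mul, pow_one]

theorem evR_quarter (g : R) : evR F (rm (1, 2, 0) g) = (4 : F)⁻¹ • evR F g := by
  have e : ((1 : ℤ) : F) * (2⁻¹) ^ 2 = (4 : F)⁻¹ := by
    rw [Int.cast_one, one_mul, inv_pow]
    norm_num
  rw [evR_rm2, e]

theorem evR_eighth (g : R) : evR F (rm (1, 3, 0) g) = (8 : F)⁻¹ • evR F g := by
  have e : ((1 : ℤ) : F) * (2⁻¹) ^ 3 = (8 : F)⁻¹ := by
    rw [Int.cast_one, one_mul, inv_pow]
    norm_num
  rw [evR_rm2, e]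

theorem evR_sixteenth (g : R) : evR F (rm (1, 4, 0) g) = (16 : F)⁻¹ • evR F g := by
  have e : ((1 : ℤ) : F) * (2⁻¹) ^ 4 = (16 : F)⁻¹ := by
    rw [Int.cast_one, one_mul, inv_pow]
    norm_num
  rw [evR_rm2, e]

theorem evR_yl (i : ℕ) (g : R) : evR F (yl i g) = OBX.yl i (evR F g) := by
  funext K
  show ev F (sb (pd (xv i) (g K)) (hf (g (i :: K)))) = _
  rw [ev_sb, ev_mu, ev_hf, ev_x]; rfl

theorem evR_yr (i : ℕ) (g : R) : evR F (yr i g) = OBX.yr i (evR F g) := by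
  funext K
  show ev F (sb (pd (g K) (xv i)) (hf (g (i :: K)))) = _
  rw [ev_sb, ev_mu, ev_hf, ev_x]; rfl

theorem evR_yj (i : ℕ) (g : R) : evR F (yj i g) = OBX.yj i (evR F g) := by
  rw [yj, evR_ra, evR_yl, evR_yr, OBX.yj]

theorem evR_qq (i j : ℕ) (g : R) : evR F (qq i j g) = OBX.qq i j (evR F g) := by
  rw [qq, evR_ra, evR_yl, evR_yl, evR_yl, evR_yl, OBX.qq]

theorem evR_QP : ∀ (L : List ℕ) (g : R), evR F (QP L g) = OBX.QP L (evR F g)
  | [], _ => rfl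
  | [_], _ => rfl
  | a :: b :: L, g => by rw [QP, evR_qq, evR_QP L g, OBX.QP]

theorem evR_c1 (a z : TL) : evR F (c1 a z) = OBY.c1 (ev F a) (ev F z) := by
  funext K
  exact ev_cK _ _ _

theorem evR_s1 (a b z : TL) : evR F (s1 a b z) = OBY.s1 (ev F a) (ev F b) (ev F z) := by
  funext K
  exact ev_sK _ _ _ _

theorem evR_tm (d a b c : TL) : evR F (tm d a b c) = OBY.tm (ev F d) (ev F a) (ev F b) (ev F c) := by
  funext K
  exact ev_tauK _ _ _ _ _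

theorem evR_pm (e a b c d : TL) :
    evR F (pm e a b c d) = OBY.pm (ev F e) (ev F a) (ev F b) (ev F c) (ev F d) := by
  funext K
  exact ev_phiK _ _ _ _ _ _

theorem evR_qz (a b : ℕ) (z : TL) (g : ℕ → ℕ → R) :
    evR F (qz a b z g) = OBY.qz a b (ev F z) (fun i j => evR F (g i j)) := by
  rw [qz, evR_ra, evR_quarter, evR_half, evR_ra, evR_ra, evR_c1, evR_c1, ev_cm, ev_cm, ev_x, ev_x, OBY.qz]

theorem evR_Q2 (a b i j : ℕ) : evR F (Q2 a b i j) = OBY.Q2 a b i j := by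
  rw [Q2, evR_qz, OBY.Q2, ev_cm, ev_x, ev_x]
  simp only [evR_tm, ev_x]

theorem evR_Q3 (a b i j k : ℕ) : evR F (Q3 a b i j k) = OBY.Q3 a b i j k := by
  rw [Q3, evR_qz, OBY.Q3, ev_as, ev_x, ev_x, ev_x]
  simp only [evR_pm, ev_x]

theorem flat_eq (w : FreeMagma ℕ) : OZ.flat w = OBX.flat w := by
  induction w with
  | ih1 a => rfl
  | ih2 u v hu hv =>
    show OZ.flat u ++ OZ.flat v = OBX.flat u ++ OBX.flat v
    rw [hu, hv]

theorem kp_eq (w : FreeMagma ℕ) : (2 : F)⁻¹ ^ OZ.kp w = OBY.kp F w := by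
  unfold OZ.kp OBY.kp
  rw [flat_eq]

theorem cmb_eq (L M : List ℕ) : OZ.cmb L M = OBY.cmb L M := rfl

theorem pl_eq (w : FreeMagma ℕ) : OZ.pl w = OBY.pl w := by
  induction w with
  | ih1 a => rfl
  | ih2 u v hu hv =>
    show OZ.cmb (OZ.pl u) (OZ.pl v) = OBY.cmb (OBY.pl u) (OBY.pl v)
    rw [hu, hv, cmb_eq]

theorem al_eq (w : FreeMagma ℕ) : OZ.al w = OBY.al w := by
  unfold OZ.al OBY.al
  rw [flat_eq]

theorem evR_SQ (L : List ℕ) (i j : ℕ) : evR F (OZ.SQ L i j) = OBY.SQ L i j := by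
  match L with
  | [] => rfl
  | [_] => rfl
  | a :: b :: N =>
    show evR F (OZ.QP N (OZ.Q2 a b i j)) = OBX.QP N (OBY.Q2 a b i j)
    rw [evR_QP, evR_Q2]

theorem evR_ite (p : Prop) [Decidable p] (g h : R) : evR F (if p then g else h) = if p then evR F g else evR F h := by
  split <;> rfl

theorem evR_cL (L : List ℕ) (i j : ℕ) : evR F (OZ.cL L i j) = OBY.cL L i j := by
  unfold OZ.cL OBY.cL
  rw [evR_ite, evR_SQ]
  congr 1
  match L with
  | [] => rfl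
  | [e] =>
    show evR F (OZ.rm (1, 1, 0) (OZ.c1 (xv e) (br (xv i) (xv j)))) = (2 : F)⁻¹ • OBY.c1 (of F e) (com (of F i) (of F j))
    rw [evR_half, evR_c1, ev_cm, ev_x, ev_x, ev_x]
  | e :: a :: N =>
    show evR F (OZ.yl e (OZ.SQ (a :: N) i j)) = OBX.yl e (OBY.SQ (a :: N) i j)
    rw [evR_yl, evR_SQ]

theorem evR_cR (L : List ℕ) (i j : ℕ) : evR F (OZ.cR L i j) = OBY.cR L i j := by
  unfold OZ.cR OBY.cR
  rw [evR_ite, evR_SQ]
  congr 1
  match L with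
  | [] => rfl
  | [e] =>
    show evR F (OZ.rm (-1, 1, 0) (OZ.c1 (xv e) (br (xv i) (xv j)))) = -((2 : F)⁻¹ • OBY.c1 (of F e) (com (of F i) (of F j)))
    rw [evR_rm2, evR_c1, ev_cm, ev_x, ev_x, ev_x]
    rw [← neg_smul]
    congr 1
    push_cast
    ring
  | e :: a :: N =>
    show evR F (OZ.yr e (OZ.SQ (a :: N) i j)) = OBX.yr e (OBY.SQ (a :: N) i j)
    rw [evR_yr, evR_SQ]

theorem evR_tP (L : List ℕ) (i j k : ℕ) : evR F (OZ.tP L i j k) = OBY.tP L i j k := by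
  unfold OZ.tP OBY.tP
  rw [evR_ite]
  congr 1
  · match L with
    | [] => rfl
    | [_] => rfl
    | a :: b :: N =>
      show evR F (OZ.QP N (OZ.yj b (OZ.tm (xv a) (xv i) (xv j) (xv k)))) =
        OBX.QP N (OBX.yj b (OBY.tm (of F a) (of F i) (of F j) (of F k)))
      rw [evR_QP, evR_yj, evR_tm, ev_x, ev_x, ev_x, ev_x]
  · match L with
    | [] => rfl
    | a :: N =>
      show evR F (OZ.QP N (OZ.tm (xv a) (xv i) (xv j) (xv k))) =
        OBX.QP N (OBY.tm (of F a) (of F i) (of F j) (of F k))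
      rw [evR_QP, evR_tm, ev_x, ev_x, ev_x, ev_x]

theorem evR_PA (L A : List ℕ) : evR F (OZ.PA L A) = OBY.PA L A := by
  match A with
  | [] => rfl
  | [_] => rfl
  | [i, j] =>
    show evR F (OZ.rm (1, 1, 0) (OZ.cL L i j)) = (2 : F)⁻¹ • OBY.cL L i j
    rw [evR_half, evR_cL]
  | [i, j, k] =>
    show evR F (OZ.rm (1, 2, 0) (OZ.tP L i j k)) = (4 : F)⁻¹ • OBY.tP L i j k
    rw [evR_quarter, evR_tP]
  | _ :: _ :: _ :: _ :: _ => rfl

theorem evR_AP (L A : List ℕ) : evR F (OZ.AP L A) = OBY.AP L A := by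
  match A with
  | [] => rfl
  | [_] => rfl
  | [i, j] =>
    show evR F (OZ.rm (1, 1, 0) (OZ.cR L i j)) = (2 : F)⁻¹ • OBY.cR L i j
    rw [evR_half, evR_cR]
  | [i, j, k] =>
    show evR F (OZ.rm (1, 2, 0) (OZ.tP L i j k)) = (4 : F)⁻¹ • OBY.tP L i j k
    rw [evR_quarter, evR_tP]
  | _ :: _ :: _ :: _ :: _ => rfl

theorem evR_AA (A B : List ℕ) : evR F (OZ.AA A B) = OBY.AA A B := by
  match A, B with
  | [], [] => rfl
  | [], _ :: _ => rfl
  | [_], [] => rfl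
  | [_], _ :: _ => rfl
  | [_, _], [] => rfl
  | [_, _], [_] => rfl
  | [i, j], [k, l] =>
    show evR F (OZ.rm (1, 3, 0) (OZ.ra (OZ.c1 (br (xv i) (xv j)) (br (xv k) (xv l))) (OZ.s1 (xv i) (xv j) (br (xv k) (xv l))))) =
      (8 : F)⁻¹ • (OBY.c1 (com (of F i) (of F j)) (com (of F k) (of F l))
      + OBY.s1 (of F i) (of F j) (com (of F k) (of F l)))
    rw [evR_eighth, evR_ra, evR_c1, evR_s1, ev_cm, ev_cm, ev_x, ev_x, ev_x, ev_x]
  | [i, j], [k, l, m] =>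
    show evR F (OZ.rm (1, 3, 0) (OZ.tm (br (xv i) (xv j)) (xv k) (xv l) (xv m))) =
      (8 : F)⁻¹ • OBY.tm (com (of F i) (of F j)) (of F k) (of F l) (of F m)
    rw [evR_eighth, evR_tm, ev_cm, ev_x, ev_x, ev_x, ev_x, ev_x]
  | [_, _], _ :: _ :: _ :: _ :: _ => rfl
  | [_, _, _], [] => rfl
  | [_, _, _], [_] => rfl
  | [k, l, m], [i, j] =>
    show evR F (OZ.rm (1, 3, 0) (OZ.tm (br (xv i) (xv j)) (xv k) (xv l) (xv m))) =
      (8 : F)⁻¹ • OBY.tm (com (of F i) (of F j)) (of F k) (of F l) (of F m)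
    rw [evR_eighth, evR_tm, ev_cm, ev_x, ev_x, ev_x, ev_x, ev_x]
  | [i, j, k], [l, m, n] =>
    show evR F (OZ.rm (1, 4, 0) (OZ.yj n (OZ.tm (br (xv l) (xv m)) (xv i) (xv j) (xv k)))) =
      (16 : F)⁻¹ • OBX.yj n (OBY.tm (com (of F l) (of F m)) (of F i) (of F j) (of F k))
    rw [evR_sixteenth, evR_yj, evR_tm, ev_cm, ev_x, ev_x, ev_x, ev_x, ev_x]
  | [_, _, _], _ :: _ :: _ :: _ :: _ => rfl
  | _ :: _ :: _ :: _ :: _, _ => rfl

theorem evR_PP2 (L M : List ℕ) : evR F (OZ.PP2 L M) = OBY.PP2 L M := by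
  unfold OZ.PP2 OBY.PP2
  rw [evR_ite]
  congr 1
  match L, M with
  | [], _ => rfl
  | _ :: _, [] => rfl
  | e :: L', f :: M' =>
    show evR F (match L' ++ M' with
      | a :: b :: N => OZ.rm (1, 1, 0) (OZ.QP N (OZ.Q2 a b e f))
      | _ => fun _ => []) = (match L' ++ M' with
      | a :: b :: N => (2 : F)⁻¹ • OBX.QP N (OBY.Q2 a b e f)
      | _ => 0)
    match L' ++ M' with
    | [] => rfl
    | [_] => rfl
    | a :: b :: N =>
      show evR F (OZ.rm (1, 1, 0) (OZ.QP N (OZ.Q2 a b e f))) = (2 : F)⁻¹ • OBX.QP N (OBY.Q2 a b e f)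
      rw [evR_half, evR_QP, evR_Q2]

theorem evR_PG (L : List ℕ) (g : R) : evR F (OZ.PG L g) = OBY.PG L (evR F g) := by
  unfold OZ.PG OBY.PG
  rw [evR_ite, evR_QP]
  congr 1
  match L with
  | [] => rfl
  | e :: L' =>
    show evR F (OZ.yl e (OZ.QP L' g)) = OBX.yl e (OBX.QP L' (evR F g))
    rw [evR_yl, evR_QP]

theorem evR_GP (L : List ℕ) (g : R) : evR F (OZ.GP L g) = OBY.GP L (evR F g) := by
  unfold OZ.GP OBY.GP
  rw [evR_ite, evR_QP]
  congr 1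
  match L with
  | [] => rfl
  | e :: L' =>
    show evR F (OZ.yr e (OZ.QP L' g)) = OBX.yr e (OBX.QP L' (evR F g))
    rw [evR_yr, evR_QP]

theorem evR_AG (A : List ℕ) (g : R) : evR F (OZ.AG A g) = OBY.AG A (evR F g) := by
  match A with
  | [] => rfl
  | [_] => rfl
  | [i, j] =>
    funext K
    show ev F (hf (pd (br (xv i) (xv j)) (g K))) = (2 : F)⁻¹ • (com (of F i) (of F j) * ev F (g K))
    rw [ev_hf, ev_mu, ev_cm, ev_x, ev_x]
  | [i, j, k] =>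
    funext K
    show ev F (sm (1, 2, 0) (sb (pd (jr (br (xv i) (xv j)) (xv k)) (g K)) (pd (br (xv i) (xv j)) (g (k :: K))))) =
      (4 : F)⁻¹ • (jor (com (of F i) (of F j)) (of F k) * ev F (g K) - com (of F i) (of F j) * ev F (g (k :: K)))
    rw [ev_sm2, ev_sb, ev_mu, ev_mu, ev_jr, ev_cm, ev_x, ev_x, ev_x]
    congr 1
    rw [show (4 : F) = 2 * 2 by norm_num, mul_inv]
    push_cast
    ring
  | _ :: _ :: _ :: _ :: _ => rfl

theorem evR_GA (A : List ℕ) (g : R) : evR F (OZ.GA A g) = OBY.GA A (evR F g) := by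
  match A with
  | [] => rfl
  | [_] => rfl
  | [i, j] =>
    funext K
    show ev F (hf (pd (g K) (br (xv i) (xv j)))) = (2 : F)⁻¹ • (ev F (g K) * com (of F i) (of F j))
    rw [ev_hf, ev_mu, ev_cm, ev_x, ev_x]
  | [i, j, k] =>
    funext K
    show ev F (sm (1, 2, 0) (sb (pd (g K) (jr (br (xv i) (xv j)) (xv k))) (pd (g (k :: K)) (br (xv i) (xv j))))) =
      (4 : F)⁻¹ • (ev F (g K) * jor (com (of F i) (of F j)) (of F k) - ev F (g (k :: K)) * com (of F i) (of F j))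
    rw [ev_sm2, ev_sb, ev_mu, ev_mu, ev_jr, ev_cm, ev_x, ev_x, ev_x]
    congr 1
    rw [show (4 : F) = 2 * 2 by norm_num, mul_inv]
    push_cast
    ring
  | _ :: _ :: _ :: _ :: _ => rfl

theorem evR_rmk (k : ℕ) (g : R) : evR F (OZ.rm (1, k, 0) g) = ((2 : F)⁻¹ ^ k) • evR F g := by
  rw [evR_rm2]
  congr 1
  push_cast
  ring

theorem evR_RR (w : FreeMagma ℕ) : evR F (OZ.RR w) = OBY.RR w := by
  induction w with
  | ih1 a => rfl
  | ih2 u v hu hv =>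
    have h1 : OZ.RR (.mul u v) = OZ.ra (OZ.ra (OZ.ra (OZ.ra (OZ.ra (OZ.ra (OZ.rm (1, OZ.kp u + OZ.kp v, 0)
      (OZ.PP2 (OZ.pl u) (OZ.pl v))) (OZ.rm (1, OZ.kp u, 0) (OZ.PA (OZ.pl u) (OZ.al v))))
      (OZ.rm (1, OZ.kp v, 0) (OZ.AP (OZ.pl v) (OZ.al u)))) (OZ.AA (OZ.al u) (OZ.al v)))
      (OZ.ra (OZ.rm (1, OZ.kp u, 0) (OZ.PG (OZ.pl u) (OZ.RR v))) (OZ.AG (OZ.al u) (OZ.RR v))))
      (OZ.ra (OZ.rm (1, OZ.kp v, 0) (OZ.GP (OZ.pl v) (OZ.RR u))) (OZ.GA (OZ.al v) (OZ.RR u)))) fun K =>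
        pd (OZ.RR u []) (OZ.RR v K) := rfl
    have h2 : OBY.RR (F := F) (.mul u v) = (OBY.kp F u * OBY.kp F v) • OBY.PP2 (OBY.pl u) (OBY.pl v)
      + OBY.kp F u • OBY.PA (OBY.pl u) (OBY.al v)
      + OBY.kp F v • OBY.AP (OBY.pl v) (OBY.al u) + OBY.AA (OBY.al u) (OBY.al v)
      + (OBY.kp F u • OBY.PG (OBY.pl u) (OBY.RR v) + OBY.AG (OBY.al u) (OBY.RR v))
      + (OBY.kp F v • OBY.GP (OBY.pl v) (OBY.RR u) + OBY.GA (OBY.al v) (OBY.RR u))
      + fun K => OBY.RR u [] * OBY.RR v K := rfl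
    have h3 : evR F (fun K => pd (OZ.RR u []) (OZ.RR v K)) = fun K => OBY.RR u [] * OBY.RR v K := by
      rw [← hu, ← hv]
      funext K
      show ev F (pd (OZ.RR u []) (OZ.RR v K)) = ev F (OZ.RR u []) * ev F (OZ.RR v K)
      rw [ev_mu]
    show evR F (OZ.RR (.mul u v)) = OBY.RR (.mul u v)
    rw [h1, h2]
    simp only [evR_ra, evR_rmk, evR_PP2, evR_PA, evR_AP, evR_AA, evR_PG, evR_AG, evR_GP, evR_GA, hu, hv, h3,
      pl_eq, al_eq, kp_eq, pow_add]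

end Pool.Agent.OZ
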