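import Pool.Agent.OZ.B

/-!
# The compact definitions: sorting  (module OZ/C)
-/

set_option autoImplicit false
set_option linter.unusedSectionVars false

namespace Pool.Agent.OZ

open FreeNonUnitalNonAssocAlgebra Pool.Agent.H.MP_41922c_al Pool.Agent.OB Pool.Agent.OBX

variable {F : Type*} [Field F]

theorem evR_E5 (c d k j i : ℕ) : evR F (E5 c d k j i) = OBY.E5 c d k j i := by
  rw [E5, evR_ra, evR_qq, evR_half, evR_c1, ev_cm, ev_x, ev_x, ev_x, evR_Q3, OBY.E5]

theorem evR_G5 (e d a i j : ℕ) : evR F (G5 e d a i j) = OBY.G5 e d a i j := by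
  rw [G5, evR_ra, evR_yl, evR_yj, evR_half, evR_c1, ev_cm, evR_pm, OBY.G5]
  simp only [ev_x]

theorem evR_J3 (a i j : ℕ) : evR F (J3 a i j) = OBY.J3 a i j := by
  have e : kap F (-1, 1, 1) = -(6 : F)⁻¹ := by
    have h : (6 : F)⁻¹ = 2⁻¹ * 3⁻¹ := by
      rw [← mul_inv]
      norm_num
    rw [h]
    simp [kap]
  rw [J3, evR_rm, evR_ra, evR_ra, evR_c1, evR_c1, evR_c1, e, OBY.J3, neg_smul]
  simp only [ev_cm, ev_x]

theorem evR_G4 (d a i j : ℕ) : evR F (G4 d a i j) = OBY.G4 d a i j := by
  rw [G4, evR_yj, evR_ra, evR_half, evR_c1, ev_cm, evR_J3, OBY.G4]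
  simp only [ev_x]

theorem evR_Ad (r : List ℕ) (i j : ℕ) (suf : List ℕ) : evR F (Ad r i j suf) = OBY.Ad r i j suf := by
  unfold Ad OBY.Ad
  by_cases h : Even suf.length
  · rw [if_pos h, if_pos h, evR_zero]
  · rw [if_neg h, if_neg h]
    rcases r with _ | ⟨a, r'⟩
    · rcases suf with _ | ⟨b, _ | ⟨c, _ | ⟨d, M⟩⟩⟩
      · exact evR_zero
      · exact evR_zero
      · exact evR_zero
      · show evR F (QP M (E5 c d b j i)) = _
        rw [evR_QP, evR_E5]
    · rcases suf with _ | ⟨d, M⟩
      · exact evR_zero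
      · simp only
        generalize r'.reverse ++ M = T
        rcases T with _ | ⟨e, R⟩
        · exact evR_G4 d a i j
        · simp only
          by_cases h' : Even R.length
          · rw [if_pos h', if_pos h', evR_QP, evR_G5]
          · rw [if_neg h', if_neg h']
            rcases R with _ | ⟨f, R'⟩
            · exact evR_zero
            · simp only
              rw [evR_QP, evR_yj, evR_G5]

theorem evR_INS (r : List ℕ) (i : ℕ) (L : List ℕ) : evR F (INS r i L) = OBY.INS r i L := by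
  induction L generalizing r with
  | nil => exact evR_zero
  | cons j L ih =>
    rw [INS, OBY.INS]
    by_cases h : i ≤ j
    · rw [if_pos h, if_pos h, evR_zero]
    · rw [if_neg h, if_neg h, evR_ra, evR_Ad, ih]

theorem evR_SRT (r L : List ℕ) : evR F (SRT r L) = OBY.SRT r L := by
  induction L generalizing r with
  | nil => exact evR_zero
  | cons i L ih => rw [SRT, OBY.SRT, evR_ra, ih, evR_INS]

theorem mo_eq' (w : FreeMagma ℕ) : mo F w = MonoidAlgebra.single w 1 := by
  induction w with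
  | ih1 a => rfl
  | ih2 u v hu hv =>
    change mo F u * mo F v = MonoidAlgebra.single (u * v) 1
    rw [hu, hv, MonoidAlgebra.single_mul_single, one_mul]

theorem linMo_mo' {M : Type*} [AddCommGroup M] [Module F M] (φ : FreeMagma ℕ → M)
    (w : FreeMagma ℕ) : linMo F φ (mo F w) = φ w := by
  change Finsupp.linearCombination F φ (mo F w).coeff = φ w
  rw [mo_eq', MonoidAlgebra.coeff_single, Finsupp.linearCombination_single, one_smul]

theorem ev_Phi (q : TL) : ev F (Phi q) = OBY.Phi3 F (ev F q) := by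
  induction q with
  | nil => rw [ev_nil, map_zero]; rfl
  | cons u q ih =>
    have e : Phi (u :: q)
        = sm u.1 (pls (RR u.2 []) (sm (1, kp u.2, 0) (SRT [] (pl u.2) []))) ++ Phi q := by simp [Phi]
    have h1 : ev F (RR u.2 []) = OBY.RR u.2 [] := congrFun (evR_RR (F := F) u.2) []
    have h2 : ev F (SRT [] (pl u.2) []) = OBY.SRT [] (OBY.pl u.2) [] := by
      rw [← pl_eq]
      exact congrFun (evR_SRT (F := F) [] (pl u.2)) []
    have h3 : OBY.Phi3 F (mo F u.2) = OBY.RR u.2 [] + OBY.kp F u.2 • OBY.SRT [] (OBY.pl u.2) [] := by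
      rw [OBY.Phi3, linMo_mo']
    rw [e, ev_append, ev_sm, ev_ad, ev_sm2, h1, h2, ih, ev_cons, map_add, map_smul, h3, Int.cast_one, one_mul, kp_eq]

end Pool.Agent.OZ
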