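import Pool.Agent.OZ.DB
import Pool.Agent.OB.Words

/-!
# The compact definitions: proper parts  (module OZ/D)
-/

set_option autoImplicit false
set_option linter.unusedSectionVars false

namespace Pool.Agent.OZ

open FreeNonUnitalNonAssocAlgebra Pool.Agent.H.MP_41922c_al Pool.Agent.OB Pool.Agent.OBX

variable {F : Type*} [Field F]

theorem del_eq (K : List ℕ) (w : FreeMagma ℕ) : del K w = OB.del K.toFinset w := by
  induction w with
  | ih1 a =>
    show (if a ∈ K then none else some (FreeMagma.of a)) = (if a ∈ K.toFinset then none else some (FreeMagma.of a))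
    simp only [List.mem_toFinset]
  | ih2 u v hu hv =>
    show (match del K u, del K v with
      | none, b => b
      | some a, none => some a
      | some a, some b => some (FreeMagma.mul a b)) = (match OB.del K.toFinset u, OB.del K.toFinset v with
      | none, b => b
      | some a, none => some a
      | some a, some b => some (a * b))
    rw [hu, hv]
    rcases OB.del K.toFinset u with _ | a
    · rfl
    · rcases OB.del K.toFinset v with _ | b
      · rfl
      · rfl

theorem ev_eK (K : List ℕ) (q : TL) : ev F (eK K q) = OB.eK F K.toFinset (ev F q) := by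
  induction q with
  | nil =>
    rw [ev_nil, map_zero]
    rfl
  | cons u q ih =>
    have h : eK K (u :: q) = Option.elim (del K u.2) [] (fun w => [(u.1, w)]) ++ eK K q := rfl
    have h1 : OB.eK F K.toFinset (mo F u.2) = moO F (OB.del K.toFinset u.2) := linMo_mo _ u.2
    rw [h, ev_append, ih, ev_cons, map_add, map_smul, h1, del_eq]
    congr 1
    rcases OB.del K.toFinset u.2 with _ | w
    · show ev F [] = kap F u.1 • (0 : FA F)
      rw [smul_zero, ev_nil]
    · show ev F [(u.1, w)] = kap F u.1 • mo F w
      rw [ev_cons, ev_nil, add_zero]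

theorem ev_lam (K : List ℕ) (q : TL) : ev F (List.foldr (fun k q => pd (xv k) q) q K) = OB.lamK F K (ev F q) := by
  induction K with
  | nil => rfl
  | cons k K ih =>
    show ev F (pd (xv k) (List.foldr (fun k q => pd (xv k) q) q K)) = of F k * OB.lamK F K (ev F q)
    rw [ev_mu, ev_x, ih]

/-- the term of `sharp` -/
noncomputable def shT (F : Type*) [Field F] (n : ℕ) (f : FA F) (K : Finset ℕ) : FA F :=
  if K.card < n then ((-1 : F) ^ K.card) • lamK F (K.sort (· ≤ ·)) (OB.eK F K f) else 0

theorem ev_flatMap {β : Type*} (l : List β) (g : β → TL) : ev F (l.flatMap g) = (l.map fun b => ev F (g b)).sum := by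
  induction l with
  | nil => rfl
  | cons b l ih => rw [List.flatMap_cons, ev_append, ih, List.map_cons, List.sum_cons]

theorem sub_sort {n : ℕ} {K : List ℕ} (h : K.Sublist (List.range n)) : K.toFinset.sort (· ≤ ·) = K := by
  have h1 : K.Pairwise (· < ·) := List.Pairwise.sublist h List.pairwise_lt_range
  have h2 : K.Pairwise (· ≤ ·) := h1.imp fun h => h.le
  have h3 : K.Nodup := h1.imp fun h => h.ne
  exact (List.toFinset_sort (· ≤ ·) h3).2 h2

theorem ev_sharp (n : ℕ) (f : TL) : ev F (sharp n f) = OB.sharp (Multiset.range n) (ev F f) := by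
  unfold sharp OB.sharp
  rw [ev_flatMap]
  have h1 : ∀ K ∈ (List.range n).sublists, ev F (if K.length < n then sm ((-1) ^ K.length, 0, 0)
      (List.foldr (fun k q => pd (xv k) q) (eK K f) K) else []) = shT F n (ev F f) K.toFinset := by
    intro K hK
    have hs := List.mem_sublists.1 hK
    have h3 : K.Nodup := (List.Sublist.nodup hs List.nodup_range)
    have h4 : K.toFinset.card = K.length := List.toFinset_card_of_nodup h3
    unfold shT
    rw [h4, sub_sort hs]
    split
    · rw [ev_sm2, ev_lam, ev_eK]
      congr 1
      push_cast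
      ring
    · rfl
  rw [List.map_congr_left h1]
  have h5 : (List.range n).sublists.Nodup := List.nodup_sublists.2 List.nodup_range
  rw [← List.sum_toFinset _ h5]
  have hV : (Multiset.range n).toFinset = Finset.range n := by
    ext a
    simp
  rw [hV]
  have h6 : (Finset.range n).powerset.erase (Finset.range n) =
      (Finset.range n).powerset.filter fun K => K.card < n := by
    ext K
    rw [Finset.mem_erase, Finset.mem_filter, Finset.mem_powerset]
    constructor
    · rintro ⟨ha, hb⟩
      refine ⟨hb, ?_⟩
      have := Finset.card_lt_card (lt_of_le_of_ne hb ha)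
      rwa [Finset.card_range] at this
    · rintro ⟨ha, hb⟩
      refine ⟨?_, ha⟩
      rintro rfl
      rw [Finset.card_range] at hb
      exact lt_irrefl _ hb
  rw [h6, Finset.sum_filter]
  refine Finset.sum_nbij List.toFinset ?_ ?_ ?_ ?_
  · intro K hK
    have hs := List.mem_sublists.1 (List.mem_toFinset.1 hK)
    rw [Finset.mem_powerset]
    intro a ha
    exact Finset.mem_range.2 (List.mem_range.1 (hs.subset (List.mem_toFinset.1 ha)))
  · intro K hK L hL h
    have hs := List.mem_sublists.1 (List.mem_toFinset.1 (Finset.mem_coe.1 hK))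
    have ht := List.mem_sublists.1 (List.mem_toFinset.1 (Finset.mem_coe.1 hL))
    rw [← sub_sort hs, ← sub_sort ht, h]
  · intro K hK
    have hK' := Finset.mem_powerset.1 (Finset.mem_coe.1 hK)
    refine ⟨K.sort (· ≤ ·), ?_, ?_⟩
    · rw [Finset.mem_coe, List.mem_toFinset, List.mem_sublists]
      refine List.sublist_of_subperm_of_pairwise (r := (· ≤ ·)) ?_ ?_ ?_
      · exact List.subperm_of_subset (Finset.sort_nodup _ _) fun a ha =>
          List.mem_range.2 (Finset.mem_range.1 (hK' ((Finset.mem_sort _).1 ha)))
      · exact Finset.pairwise_sort _ _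
      · exact List.pairwise_le_range
    · exact Finset.sort_toFinset _ _
  · intro K hK
    rfl

theorem ev_Psi (n : ℕ) (f : TL) : ev F (Psi n f) = OBY.Psi3 (Multiset.range n) (ev F f) := by
  show ev F (sb (pls (Phi f) (sharp n f)) (Phi (sharp n f))) = OBY.Phi3 F (ev F f) +
    OB.sharp (Multiset.range n) (ev F f) - OBY.Phi3 F (OB.sharp (Multiset.range n) (ev F f))
  rw [ev_sb, ev_ad, ev_Phi, ev_Phi, ev_sharp]

end Pool.Agent.OZ
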