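import Pool.Agent.OZ.C

/-!
# The compact definitions: the laws  (module OZ/DB)
-/

set_option autoImplicit false
set_option linter.unusedSectionVars false

namespace Pool.Agent.OZ

open FreeNonUnitalNonAssocAlgebra Pool.Agent.H.MP_41922c_al Pool.Agent.OB Pool.Agent.OBX

variable {F : Type*} [Field F]

theorem invW_mul' (a b : FA F) : invW (a * b) = invW b * invW a := by
  unfold invW
  rw [map_mul, MulOpposite.unop_mul]

theorem invW_of' (i : ℕ) : invW (of F i) = -of F i := by
  unfold invW invWHom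
  rw [lift_of_apply]
  rfl

theorem ev_iv (w : FreeMagma ℕ) : ev F (ivo w) = invW (mo F w) := by
  induction w with
  | ih1 a =>
    show ev F (sm (-1, 0, 0) (xv a)) = invW (of F a)
    rw [ev_sm2, ev_x, invW_of']
    simp
  | ih2 u v hu hv =>
    show ev F (pd (ivo v) (ivo u)) = invW (mo F u * mo F v)
    rw [ev_mu, hu, hv, invW_mul']

theorem law_isLaw {l : TL} (h : Inst l) : IsLaw F (ev F l) := by
  induction h with
  | altL u v w => rw [ev_ad, ev_as, ev_as, ev_wd, ev_wd, ev_wd]; exact .altL u v w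
  | altR u v w => rw [ev_ad, ev_as, ev_as, ev_wd, ev_wd, ev_wd]; exact .altR u v w
  | trC u v => rw [ev_cm, ev_ad, ev_wd, ev_wd, ev_iv]; exact .trC u v
  | trA u v w => rw [ev_as, ev_ad, ev_wd, ev_wd, ev_wd, ev_iv]; exact .trA u v w
  | left u f _ ih => rw [ev_mu, ev_wd]; exact .left u _ ih
  | right u f _ ih => rw [ev_mu, ev_wd]; exact .right u _ ih

theorem isLaw_law {f : FA F} (h : IsLaw F f) : ∃ l, Inst l ∧ ev F l = f := by
  induction h with
  | altL u v w => exact ⟨_, .altL u v w, by rw [ev_ad, ev_as, ev_as, ev_wd, ev_wd, ev_wd]⟩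
  | altR u v w => exact ⟨_, .altR u v w, by rw [ev_ad, ev_as, ev_as, ev_wd, ev_wd, ev_wd]⟩
  | trC u v => exact ⟨_, .trC u v, by rw [ev_cm, ev_ad, ev_wd, ev_wd, ev_iv]⟩
  | trA u v w => exact ⟨_, .trA u v w, by rw [ev_as, ev_ad, ev_wd, ev_wd, ev_wd, ev_iv]⟩
  | left u f _ ih =>
    obtain ⟨l, hl, rfl⟩ := ih
    exact ⟨_, .left u l hl, by rw [ev_mu, ev_wd]⟩
  | right u f _ ih =>
    obtain ⟨l, hl, rfl⟩ := ih
    exact ⟨_, .right u l hl, by rw [ev_mu, ev_wd]⟩

/-- all the words of `q` have the letters `L` -/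
def HasL (L : List ℕ) (q : TL) : Prop := ∀ u ∈ q, (flat u.2).Perm L

theorem HasL.pls {L : List ℕ} {a b : TL} (ha : HasL L a) (hb : HasL L b) : HasL L (pls a b) := by
  intro u hu
  have hu' : u ∈ a ++ b := hu
  rcases List.mem_append.1 hu' with h | h
  · exact ha u h
  · exact hb u h

theorem HasL.sm {L : List ℕ} {a : TL} (c : ℤ × ℕ × ℕ) (ha : HasL L a) : HasL L (sm c a) := by
  intro u hu
  obtain ⟨v, hv, rfl⟩ := List.mem_map.1 hu
  exact ha v hv

theorem HasL.sb {L : List ℕ} {a b : TL} (ha : HasL L a) (hb : HasL L b) : HasL L (sb a b) :=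
  ha.pls (hb.sm _)

theorem HasL.pd {L M : List ℕ} {a b : TL} (ha : HasL L a) (hb : HasL M b) : HasL (L ++ M) (pd a b) := by
  intro u hu
  obtain ⟨v, hv, hu⟩ := List.mem_flatMap.1 hu
  obtain ⟨w, hw, rfl⟩ := List.mem_map.1 hu
  exact (ha v hv).append (hb w hw)

theorem HasL.perm {L M : List ℕ} (h : L.Perm M) {a : TL} (ha : HasL L a) : HasL M a :=
  fun u hu => (ha u hu).trans h

theorem HasL.wd (w : FreeMagma ℕ) : HasL (flat w) (wd w) := by
  intro u hu
  have hu' : u ∈ [(((1 : ℤ), 0, 0), w)] := hu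
  rw [List.mem_singleton] at hu'
  subst hu'
  exact List.Perm.refl _

theorem HasL.ivo (w : FreeMagma ℕ) : HasL (flat w) (ivo w) := by
  induction w with
  | ih1 a => exact HasL.sm _ (HasL.wd (.of a))
  | ih2 u v hu hv => exact (HasL.pd hv hu).perm List.perm_append_comm

theorem HasL.asr {L M N : List ℕ} {a b c : TL} (ha : HasL L a) (hb : HasL M b) (hc : HasL N c) :
    HasL (L ++ M ++ N) (asr a b c) :=
  ((ha.pd hb).pd hc).sb ((ha.pd (hb.pd hc)).perm (by rw [List.append_assoc]))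

theorem HasL.br {L M : List ℕ} {a b : TL} (ha : HasL L a) (hb : HasL M b) : HasL (L ++ M) (br a b) :=
  (ha.pd hb).sb ((hb.pd ha).perm List.perm_append_comm)

/-- the words of an instance have the same letters -/
theorem law_letters {l : TL} (h : Inst l) : ∃ L : List ℕ, ∀ u ∈ l, (flat u.2).Perm L := by
  induction h with
  | altL u v w =>
    exact ⟨flat u ++ flat v ++ flat w, ((HasL.wd u).asr (HasL.wd v) (HasL.wd w)).pls
      (((HasL.wd v).asr (HasL.wd u) (HasL.wd w)).perm (List.perm_append_comm.append_right _))⟩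
  | altR u v w =>
    refine ⟨flat w ++ flat u ++ flat v, ((HasL.wd w).asr (HasL.wd u) (HasL.wd v)).pls
      (((HasL.wd w).asr (HasL.wd v) (HasL.wd u)).perm ?_)⟩
    rw [List.append_assoc, List.append_assoc]
    exact List.perm_append_comm.append_left _
  | trC u v => exact ⟨flat u ++ flat v, ((HasL.wd u).pls (HasL.ivo u)).br (HasL.wd v)⟩
  | trA u v w => exact ⟨flat u ++ flat v ++ flat w, ((HasL.wd u).pls (HasL.ivo u)).asr (HasL.wd v) (HasL.wd w)⟩
  | left u f _ ih =>
    obtain ⟨L, hL⟩ := ih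
    exact ⟨flat u ++ L, (HasL.wd u).pd hL⟩
  | right u f _ ih =>
    obtain ⟨L, hL⟩ := ih
    exact ⟨L ++ flat u, HasL.pd hL (HasL.wd u)⟩

theorem lets_flat (w : FreeMagma ℕ) : lets id w = (flat w : Multiset ℕ) := by
  induction w with
  | ih1 a => rfl
  | ih2 u v hu hv =>
    show lets id u + lets id v = ((flat u ++ flat v : List ℕ) : Multiset ℕ)
    rw [hu, hv, Multiset.coe_add]

theorem ev_mem_P {l : TL} {L : List ℕ} (h : ∀ u ∈ l, (flat u.2).Perm L) : ev F l ∈ P F (L : Multiset ℕ) := by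
  induction l with
  | nil => rw [ev_nil]; exact Submodule.zero_mem _
  | cons u l ih =>
    rw [ev_cons]
    refine Submodule.add_mem _ (Submodule.smul_mem _ _ (Submodule.subset_span ⟨u.2, ?_, rfl⟩))
      (ih fun v hv => h v (List.mem_cons_of_mem _ hv))
    rw [lets_flat]
    exact Multiset.coe_eq_coe.2 (h u List.mem_cons_self)

end Pool.Agent.OZ
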