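import Pool.Agent.OZ.C

/-!
# The compact definitions: the proper part  (module OZ/DS)
-/

set_option autoImplicit false
set_option linter.unusedSectionVars false

namespace Pool.Agent.OZ

open FreeNonUnitalNonAssocAlgebra Pool.Agent.H.MP_41922c_al Pool.Agent.OB Pool.Agent.OBX

variable {F : Type*} [Field F]

theorem ev_flatSum {α : Type} (l : List α) (f : α → TL) :
    ev F (l.flatMap f) = (l.map fun s => ev F (f s)).sum := by
  induction l with
  | nil => rfl
  | cons a l ih => rw [List.flatMap_cons, ev_append, ih, List.map_cons, List.sum_cons]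

/-- sublists of `0, .., n - 1` and subsets -/
theorem sum_sublists {M : Type*} [AddCommMonoid M] (n : ℕ) (g : List ℕ → M) :
    ((List.range n).sublists.map g).sum = ∑ K ∈ (Finset.range n).powerset, g (K.sort (· ≤ ·)) := by
  have hnd : (List.range n).sublists.Nodup := List.nodup_sublists.2 List.nodup_range
  rw [← List.sum_toFinset g hnd]
  have hs : ∀ L : List ℕ, L.Sublist (List.range n) → L.toFinset.sort (· ≤ ·) = L := by
    intro L hL
    have h1 : L.Nodup := List.nodup_range.sublist hL
    have h2 : L.Pairwise (· ≤ ·) := List.Pairwise.sublist hL (List.pairwise_le_range)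
    exact (List.toFinset_sort (· ≤ ·) h1).2 h2
  refine Finset.sum_nbij' (fun L => L.toFinset) (fun K => K.sort (· ≤ ·)) ?_ ?_ ?_ ?_ ?_
  · intro L hL
    rw [List.mem_toFinset, List.mem_sublists] at hL
    rw [Finset.mem_powerset]
    intro a ha
    rw [List.mem_toFinset] at ha
    rw [Finset.mem_range]
    exact List.mem_range.1 (hL.subset ha)
  · intro K hK
    rw [Finset.mem_powerset] at hK
    rw [List.mem_toFinset, List.mem_sublists]
    refine List.sublist_of_subperm_of_pairwise ?_ (Finset.pairwise_sort K (· ≤ ·)) List.pairwise_le_range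
    refine List.Nodup.subperm (Finset.sort_nodup K (· ≤ ·)) ?_
    intro a ha
    rw [Finset.mem_sort] at ha
    exact List.mem_range.2 (Finset.mem_range.1 (hK ha))
  · intro L hL
    rw [List.mem_toFinset, List.mem_sublists] at hL
    exact hs L hL
  · intro K _
    exact Finset.sort_toFinset _ _
  · intro L hL
    rw [List.mem_toFinset, List.mem_sublists] at hL
    rw [hs L hL]

theorem ev_sharp_of (he : ∀ (K : List ℕ) (q : TL), ev F (eK K q) = OB.eK F K.toFinset (ev F q))
    (hl : ∀ (K : List ℕ) (q : TL), ev F (List.foldr (fun k q => pd (xv k) q) q K) = OB.lamK F K (ev F q))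
    (n : ℕ) (f : TL) : ev F (sharp n f) = OB.sharp (Multiset.range n) (ev F f) := by
  have hV : (Multiset.range n).toFinset = Finset.range n := by
    ext a
    rw [Multiset.mem_toFinset, Multiset.mem_range, Finset.mem_range]
  unfold sharp OB.sharp
  rw [hV, ev_flatSum, sum_sublists]
  refine (Finset.sum_erase _ ?_).symm.trans (Finset.sum_congr rfl fun K hK => ?_)
  rotate_left
  · rw [Finset.mem_erase, Finset.mem_powerset] at hK
    have hc : K.card < n := by
      have := Finset.card_lt_card (Finset.ssubset_iff_subset_ne.2 ⟨hK.2, hK.1⟩)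
      rwa [Finset.card_range] at this
    rw [Finset.length_sort, if_pos hc, ev_sm2, hl, he, Finset.sort_toFinset, pow_zero, mul_one, Int.cast_pow,
      Int.cast_neg, Int.cast_one]
  · rw [Finset.length_sort, Finset.card_range, if_neg (Nat.lt_irrefl n)]
    rfl

theorem ev_Psi_of (he : ∀ (K : List ℕ) (q : TL), ev F (eK K q) = OB.eK F K.toFinset (ev F q))
    (hl : ∀ (K : List ℕ) (q : TL), ev F (List.foldr (fun k q => pd (xv k) q) q K) = OB.lamK F K (ev F q))
    (n : ℕ) (f : TL) : ev F (Psi n f) = OBY.Psi3 (Multiset.range n) (ev F f) := by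
  rw [Psi, ev_sb, ev_ad, ev_Phi, ev_Phi, ev_sharp_of he hl, OBY.Psi3]

end Pool.Agent.OZ
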