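import Pool.Agent.OZ.D
import Pool.Agent.OB.YN
import Pool.Agent.OB.YO

/-!
# The compact definitions: the basis  (module OZ/E)
-/

set_option autoImplicit false
set_option linter.unusedSectionVars false

namespace Pool.Agent.OZ

open FreeNonUnitalNonAssocAlgebra Pool.Agent.H.MP_41922c_al Pool.Agent.OB Pool.Agent.OBX

variable {F : Type*} [Field F]

theorem ev_altL : ev F (asr (xv 0) (xv 0) (xv 1)) = associator (of F 0) (of F 0) (of F 1) := by
  rw [ev_as, ev_x, ev_x]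

theorem ev_altR : ev F (asr (xv 1) (xv 0) (xv 0)) = associator (of F 1) (of F 0) (of F 0) := by
  rw [ev_as, ev_x, ev_x]

theorem Bas_sub (d : ℕ) : Bas F d ⊆ OBY.Bas3 F d := by
  rintro g ⟨q, hq, rfl⟩
  cases hq with
  | altL => exact Or.inl (Or.inl ev_altL)
  | altR => exact Or.inl (Or.inr ev_altR)
  | psi n f h4 hd hl hp =>
    exact Or.inr ⟨n, h4, hd, ev F f, ⟨law_isLaw hl, ev_mem_P hp⟩, ev_Psi n f⟩

theorem sub_Bas (d : ℕ) : OBY.Bas3 F d ⊆ insert 0 (Bas F d) := by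
  rintro g ((h | h) | ⟨n, h4, hd, f, ⟨hf, hP⟩, rfl⟩)
  · exact Or.inr ⟨_, .altL, h.trans ev_altL.symm⟩
  · exact Or.inr ⟨_, .altR, h.trans ev_altR.symm⟩
  · obtain ⟨l, hl, rfl⟩ := isLaw_law hf
    obtain ⟨L, hL⟩ := law_letters hl
    by_cases h : (L : Multiset ℕ) = Multiset.range n
    · refine Or.inr ⟨_, .psi n l h4 hd hl fun u hu => (hL u hu).trans ?_, (ev_Psi n l).symm⟩
      exact Multiset.coe_eq_coe.1 h
    · left
      have h1 : comp F id (Multiset.range n) (ev F l) = ev F l := comp_of_mem id hP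
      have h2 : comp F id (Multiset.range n) (ev F l) = 0 := comp_of_ne id (ev_mem_P hL) h
      have h0 : ev F l = 0 := by rw [← h1, h2]
      rw [h0]
      have h3 := OBY.Psi3_smul (Multiset.range n) (0 : F) (0 : FA F)
      rwa [zero_smul, zero_smul] at h3

theorem Bas_finite {p : ℕ} [Fact p.Prime] [CharP F p] (d : ℕ) : (Bas F d).Finite :=
  (OBY.Bas3_finite (p := p) d).subset (Bas_sub d)

theorem tIdeal_eq (d : ℕ) : tIdeal F (Bas F d) = tIdeal F (OBY.Bas3 F d) := by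
  apply le_antisymm
  · exact tIdeal_le (isTIdeal_tIdeal _) ((Bas_sub d).trans (subset_tIdeal _))
  · refine tIdeal_le (isTIdeal_tIdeal _) ?_
    intro g hg
    rcases sub_Bas d hg with h | h
    · rw [h]
      exact zero_mem _
    · exact subset_tIdeal _ h

theorem mainZ [Infinite F] (h2 : (2 : F) ≠ 0) (f : FA F) : Id F f ↔ ∃ d, f ∈ tIdeal F (Bas F d) := by
  simp only [tIdeal_eq]
  exact OBY.main3 h2 f

theorem mainZ_all [Infinite F] (h2 : (2 : F) ≠ 0) (f : FA F) : Id F f ↔ f ∈ tIdeal F (⋃ d : ℕ, Bas F d) := by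
  constructor
  · intro hid
    obtain ⟨d, hd⟩ := (mainZ h2 f).1 hid
    exact tIdeal_le (isTIdeal_tIdeal _) ((Set.subset_iUnion (Bas F) d).trans (subset_tIdeal _)) hd
  · intro hf
    have h1 : tIdeal F (⋃ d : ℕ, Bas F d) ≤ identities F (Smt.Oc F) := by
      refine tIdeal_le (isTIdeal_identities (Smt.Oc F)) ?_
      intro g hg
      obtain ⟨d, hd⟩ := Set.mem_iUnion.1 hg
      exact OBY.Bas3_id h2 (Bas_sub d hd)
    exact h1 hf

theorem mainZ_11 [Infinite F] (h10 : ((Nat.factorial 10 : ℕ) : F) ≠ 0) (f : FA F) :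
    Id F f ↔ f ∈ tIdeal F (Bas F 9) := by
  rw [tIdeal_eq]
  exact OBY.main3_11 h10 f

end Pool.Agent.OZ
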